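import Mathlib
import Pool.Agent.Lib.Common.Forcing.Defs
import Pool.Agent.Lib.MP_f42089_lc.Stmt
import Pool.Agent.Lib.MP_f42089_lc.Model

set_option autoImplicit false

namespace Pool.Agent.Results.MP_f42089_lc.ColourSpectrum

open Pool.Agent.Lib.Common.Forcing Pool.Agent.Lib.MP_f42089_lc

/-- There is a countable transitive model of ZFC and CH in which every colouring of the triples of
subsets of the first uncountable ordinal with `k` colours takes, on a set of size aleph one, at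
most 12 colours, at most 11 if `k ≤ 23` and at most 10 if `k ≤ 13`. -/
theorem result : ∃ M w : ZFSet.{0}, IsCTM M ∧ IsOmegaOne M w ∧
    LeIn M {x | x ∈ M ∧ x ⊆ ZFSet.omega} w ∧ ∀ k : ℕ, ∀ c ∈ M,
      (∀ x ∈ M, ∀ y ∈ M, ∀ z ∈ M, x ⊆ w → y ⊆ w → z ⊆ w → x ≠ y → x ≠ z → y ≠ z →
        ∃! j, j < k ∧ Has c x y z j) →
      ∃ H ∈ M, (∀ x ∈ H, x ⊆ w) ∧ LeIn M H w ∧ ¬ LeIn M H ZFSet.omega ∧
        ∃ S : Finset ℕ, S.card ≤ 12 ∧ (k ≤ 23 → S.card ≤ 11) ∧ (k ≤ 13 → S.card ≤ 10) ∧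
          ∀ x ∈ H, ∀ y ∈ H, ∀ z ∈ H, x ≠ y → x ≠ z → y ≠ z →
            ∀ j < k, Has c x y z j → j ∈ S := by
  obtain ⟨M, w, h1, h2, h3, h4⟩ := exists_model
  refine ⟨M, w, h1, h2, h3, fun k c hc h => ?_⟩
  obtain ⟨H, a1, a2, a3, a4, S, a5, a6⟩ := h4 k c hc h
  unfold bnd at a5
  refine ⟨H, a1, a2, a3, a4, S, ?_, fun _ => ?_, fun _ => ?_, a6⟩ <;> split_ifs at a5 <;> omega

/-- The case of eleven colours: one colour is missed. -/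
theorem eleven : ∃ M w : ZFSet.{0}, IsCTM M ∧ IsOmegaOne M w ∧
    LeIn M {x | x ∈ M ∧ x ⊆ ZFSet.omega} w ∧ ∀ c ∈ M,
      (∀ x ∈ M, ∀ y ∈ M, ∀ z ∈ M, x ⊆ w → y ⊆ w → z ⊆ w → x ≠ y → x ≠ z → y ≠ z →
        ∃! j, j < 11 ∧ Has c x y z j) →
      ∃ H ∈ M, (∀ x ∈ H, x ⊆ w) ∧ LeIn M H w ∧ ¬ LeIn M H ZFSet.omega ∧
        ∃ j < 11, ∀ x ∈ H, ∀ y ∈ H, ∀ z ∈ H, x ≠ y → x ≠ z → y ≠ z → ¬ Has c x y z j := by
  obtain ⟨M, w, h1, h2, h3, h4⟩ := result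
  refine ⟨M, w, h1, h2, h3, fun c hc h => ?_⟩
  obtain ⟨H, a1, a2, a3, a4, S, -, -, a5, a6⟩ := h4 11 c hc h
  obtain ⟨j, b1, b2⟩ := Finset.exists_mem_notMem_of_card_lt_card (s := S) (t := Finset.range 11)
    (by simpa using Nat.lt_succ_of_le (a5 (by norm_num)))
  exact ⟨H, a1, a2, a3, a4, j, Finset.mem_range.1 b1, fun x hx y hy z hz n1 n2 n3 k =>
    b2 (a6 x hx y hy z hz n1 n2 n3 j (Finset.mem_range.1 b1) k)⟩

end Pool.Agent.Results.MP_f42089_lc.ColourSpectrum
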