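import Mathlib
import Pool.Agent.Lib.MP_f42089_lc.Neg

set_option autoImplicit false

namespace Pool.Agent.Results.MP_f42089_lc.StepUp

open Pool.Agent.Lib.MP_f42089_lc

/-- For `k ≥ 14` some colouring with `k` colours takes at least 11 colours, for `k ≥ 24` at least
12 colours, on the triples of every uncountable set of zero-one sequences of length omega one. -/
theorem result (k : ℕ) (hk : 14 ≤ k) :
    ∃ c : Finset ((Ordinal.omega.{0} 1).ToType → Bool) → Fin k,
      ∀ H : Set ((Ordinal.omega.{0} 1).ToType → Bool), ¬ H.Countable →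
        (if 24 ≤ k then 12 else 11) ≤ (c '' {s | ↑s ⊆ H ∧ s.card = 3}).ncard := by
  split_ifs with h
  · obtain ⟨c, hc⟩ := sharp24
    refine ⟨Fin.castLE h ∘ c, fun H hH => ?_⟩
    rw [Set.image_comp, Set.ncard_image_of_injective _ (Fin.castLE_injective h)]
    exact hc H hH
  · obtain ⟨c, hc⟩ := sharp14
    refine ⟨Fin.castLE hk ∘ c, fun H hH => ?_⟩
    rw [Set.image_comp, Set.ncard_image_of_injective _ (Fin.castLE_injective hk)]
    exact hc H hH

end Pool.Agent.Results.MP_f42089_lc.StepUp
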